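import Pool.Agent.Lib.MP_7592f8.Defs

/-!
# MP_7592f8_co: sets of size two (helper46): definitions
-/

namespace Cross7592
open Finset

/-- The largest total size of `r` non-empty `r`-cross `{0, 2}`-intersecting families of pairs. -/
def val2 (n r : ℕ) : ℕ :=
  if n = 2 then r else if n = 3 then 3 * r - 6 else
    (r - 2) * n.choose 2 + 1 + (n - 2).choose 2

/-- All families are equal to one and the same `{K}`, where `K` is a pair. -/
def Const2 (n r : ℕ) (𝒜 : Fin r → Finset (Finset (Fin n))) : Prop :=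
  ∃ K : Finset (Fin n), #K = 2 ∧ ∀ i, 𝒜 i = {K}

/-- For every point `x` one family, the `g x`-th, consists of the complement of `x` only, for
different points it is a different one; the other families consist of all pairs. -/
def Tri (n r : ℕ) (𝒜 : Fin r → Finset (Finset (Fin n))) : Prop :=
  ∃ g : Fin n → Fin r, Function.Injective g ∧ (∀ x, 𝒜 (g x) = {univ.erase x}) ∧
    ∀ i, (∀ x, g x ≠ i) → ∀ F, F ∈ 𝒜 i ↔ #F = 2

/-- The extremal tuples for `k = 2`. -/
def Ext2 (n r : ℕ) (𝒜 : Fin r → Finset (Finset (Fin n))) : Prop :=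
  (n = 2 ∧ Const2 n r 𝒜) ∨ (n = 3 ∧ (Tri n r 𝒜 ∨ (r = 3 ∧ Const2 n r 𝒜))) ∨
    (4 ≤ n ∧ TypeB n 2 r 0 1 𝒜)

end Cross7592
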