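import Pool.Agent.Lib.MP_7592f8P.Num
import Pool.Agent.Lib.MP_7592f8P.Defs

/-!
# MP_7592f8_co: sets of size two (helper46): the structure of the tuples
-/

set_option autoImplicit false

namespace Cross2
open Finset Cross7592

variable {n r : ℕ} {𝒜 : Fin r → Finset (Finset (Fin n))} {L : Finset ℕ}

theorem mem_common' {A : Fin r → Finset (Fin n)} {x : Fin n} : x ∈ common A ↔ ∀ i, x ∈ A i := by
  simp [common]

/-- If a choice has a common point, all its members are equal. -/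
theorem all_eq (h : Adm n 2 r L 𝒜) (h1 : 1 ∉ L) {A : Fin r → Finset (Fin n)}
    (hA : ∀ i, A i ∈ 𝒜 i) {x : Fin n} (hx : ∀ i, x ∈ A i) (i : Fin r) : A i = common A := by
  have hsub : common A ⊆ A i := fun y hy => mem_common'.1 hy i
  have h2 := card_le_card hsub
  rw [h.sub i _ (hA i)] at h2
  have h3 : 0 < #(common A) := card_pos.2 ⟨x, mem_common'.2 hx⟩
  have h4 := h.cross A hA
  have h5 : #(common A) = 2 := by
    have : #(common A) ≠ 1 := fun h6 => h1 (h6 ▸ h4)
    omega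
  exact (eq_of_subset_of_card_le hsub (by rw [h.sub i _ (hA i), h5])).symm

/-- A point that is missed by no family. -/
theorem iso (h : Adm n 2 r L 𝒜) (h1 : 1 ∉ L) (hr : 2 ≤ r) {x : Fin n}
    (hx : ∀ i, ∃ F ∈ 𝒜 i, x ∈ F) :
    ∃ e : Finset (Fin n), #e = 2 ∧ x ∈ e ∧ ∀ i, e ∈ 𝒜 i ∧ ∀ F ∈ 𝒜 i, x ∈ F → F = e := by
  classical
  choose A hA1 hA2 using hx
  have he := fun i => all_eq h h1 hA1 hA2 i
  have h0 : Nonempty (Fin r) := ⟨⟨0, by omega⟩⟩
  obtain ⟨i0⟩ := h0
  refine ⟨common A, ?_, mem_common'.2 hA2, fun i => ⟨?_, fun F hF hxF => ?_⟩⟩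
  · rw [← he i0]
    exact h.sub i0 _ (hA1 i0)
  · rw [← he i]
    exact hA1 i
  · have hB1 : ∀ j, Function.update A i F j ∈ 𝒜 j := by
      intro j
      by_cases hj : j = i
      · rw [hj, Function.update_self]; exact hF
      · rw [Function.update_of_ne hj]; exact hA1 j
    have hB2 : ∀ j, x ∈ Function.update A i F j := by
      intro j
      by_cases hj : j = i
      · rw [hj, Function.update_self]; exact hxF
      · rw [Function.update_of_ne hj]; exact hA2 j
    obtain ⟨j, hj⟩ : ∃ j : Fin r, j ≠ i := by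
      by_cases hi : i.1 = 0
      · exact ⟨⟨1, by omega⟩, fun hc => by rw [← hc] at hi; simp at hi⟩
      · exact ⟨⟨0, by omega⟩, fun hc => hi (by rw [← hc])⟩
    have e1 := all_eq h h1 hB1 hB2 i
    have e2 := all_eq h h1 hB1 hB2 j
    rw [Function.update_self] at e1
    rw [Function.update_of_ne hj] at e2
    rw [e1, ← e2, he j]

/-- The pairs outside `X`. -/
theorem card_out (X : Finset (Fin n)) : #(powersetCard 2 Xᶜ) = (n - #X).choose 2 := by
  rw [card_powersetCard, card_compl, Fintype.card_fin]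

/-- The sizes of the fibres. -/
theorem sum_fib (idx : Fin n → Fin r) :
    ∑ i, #(univ.filter fun x => idx x = i) = n := by
  have h := card_eq_sum_card_fiberwise (s := (univ : Finset (Fin n))) (t := (univ : Finset (Fin r)))
    (f := idx) (fun x _ => mem_univ _)
  rw [card_univ, Fintype.card_fin] at h
  exact h.symm

/-- Case A: every point is missed by some family. -/
theorem caseA (h : Adm n 2 r L 𝒜) {idx : Fin n → Fin r} (hidx : ∀ x, ∀ F ∈ 𝒜 (idx x), x ∉ F)
    (i : Fin r) : 𝒜 i ⊆ powersetCard 2 (univ.filter fun x => idx x = i)ᶜ ∧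
      #(univ.filter fun x => idx x = i) + 2 ≤ n := by
  have hsub : ∀ F ∈ 𝒜 i, F ⊆ (univ.filter fun x => idx x = i)ᶜ := by
    intro F hF x hx
    rw [mem_compl, mem_filter]
    rintro ⟨-, h1⟩
    subst h1
    exact hidx x F hF hx
  refine ⟨fun F hF => mem_powersetCard.2 ⟨hsub F hF, h.sub i F hF⟩, ?_⟩
  obtain ⟨F, hF⟩ := h.ne i
  have h1 := card_le_card (hsub F hF)
  rw [h.sub i F hF, card_compl, Fintype.card_fin] at h1
  omega

/-- Case B: the bound of one family by the number of the points that are not missed. -/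
theorem caseB (h : Adm n 2 r L 𝒜) (h1 : 1 ∉ L) (hr : 2 ≤ r) {M : Finset (Fin n)}
    (hM : ∀ x, x ∈ M ↔ ∀ i, ∃ F ∈ 𝒜 i, x ∈ F) {idx : Fin n → Fin r}
    (hidx : ∀ x, x ∉ M → ∀ F ∈ 𝒜 (idx x), x ∉ F) (i : Fin r) :
    2 * #(𝒜 i) ≤ #M + 2 * (n - #M - #(Mᶜ.filter fun x => idx x = i)).choose 2 := by
  classical
  have hsplit := card_filter_add_card_filter_not (s := 𝒜 i) (fun F => ∃ x ∈ F, x ∈ M)
  -- the first part
  have hp1 : 2 * #((𝒜 i).filter fun F => ∃ x ∈ F, x ∈ M) ≤ #M := by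
    have hd : ∀ F ∈ (𝒜 i).filter (fun F => ∃ x ∈ F, x ∈ M),
        ∀ G ∈ (𝒜 i).filter (fun F => ∃ x ∈ F, x ∈ M), F ≠ G → Disjoint F G := by
      intro F hF G hG hFG
      rw [mem_filter] at hF hG
      rw [Finset.disjoint_left]
      intro y hyF hyG
      obtain ⟨hF1, x, hxF, hxM⟩ := hF
      obtain ⟨e, e1, e2, e3⟩ := iso h h1 hr ((hM x).1 hxM)
      have hFe : F = e := (e3 i).2 F hF1 hxF
      have hy : ∀ j, ∃ G ∈ 𝒜 j, y ∈ G := fun j => ⟨e, (e3 j).1, hFe ▸ hyF⟩
      obtain ⟨e', e1', e2', e3'⟩ := iso h h1 hr hy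
      exact hFG (((e3' i).2 F hF1 hyF).trans ((e3' i).2 G hG.1 hyG).symm)
    have hs : ((𝒜 i).filter fun F => ∃ x ∈ F, x ∈ M).biUnion id ⊆ M := by
      intro y hy
      rw [mem_biUnion] at hy
      obtain ⟨F, hF, hyF⟩ := hy
      rw [mem_filter] at hF
      obtain ⟨hF1, x, hxF, hxM⟩ := hF
      obtain ⟨e, e1, e2, e3⟩ := iso h h1 hr ((hM x).1 hxM)
      have hFe : F = e := (e3 i).2 F hF1 hxF
      exact (hM y).2 fun j => ⟨e, (e3 j).1, hFe ▸ hyF⟩
    have hc := card_biUnion (s := (𝒜 i).filter fun F => ∃ x ∈ F, x ∈ M) (t := id)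
      (fun F hF G hG hFG => hd F hF G hG hFG)
    have hc2 : ∑ F ∈ (𝒜 i).filter (fun F => ∃ x ∈ F, x ∈ M), #(id F) =
        #((𝒜 i).filter fun F => ∃ x ∈ F, x ∈ M) * 2 :=
      sum_const_nat fun F hF => h.sub i F (mem_filter.1 hF).1
    have := card_le_card hs
    rw [hc, hc2] at this
    omega
  -- the second part
  have hp2 : #((𝒜 i).filter fun F => ¬ ∃ x ∈ F, x ∈ M) ≤
      (n - #M - #(Mᶜ.filter fun x => idx x = i)).choose 2 := by
    have hs : ((𝒜 i).filter fun F => ¬ ∃ x ∈ F, x ∈ M) ⊆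
        powersetCard 2 (Mᶜ \ (Mᶜ.filter fun x => idx x = i)) := by
      intro F hF
      rw [mem_filter] at hF
      obtain ⟨hF1, hF2⟩ := hF
      rw [mem_powersetCard]
      refine ⟨fun x hx => ?_, h.sub i F hF1⟩
      have hxM : x ∉ M := fun hc => hF2 ⟨x, hx, hc⟩
      rw [mem_sdiff, mem_compl]
      refine ⟨hxM, fun hc => ?_⟩
      rw [mem_filter] at hc
      obtain ⟨-, hc⟩ := hc
      subst hc
      exact hidx x hxM F hF1 hx
    have := card_le_card hs
    rw [card_powersetCard, card_sdiff_of_subset (filter_subset _ _), card_compl,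
      Fintype.card_fin] at this
    exact this
  omega

end Cross2
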