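import Pool.Agent.Lib.MP_7592f8.Main
import Pool.Agent.Lib.MP_7592f8P.Struct

/-!
# MP_7592f8_co: sets of size two (helper46): the main theorem
-/

namespace Cross7592
open Finset Cross2

theorem L_eq {L : Finset ℕ} (hk : ∀ l ∈ L, l ≤ 2) (hL : ∀ a b : ℕ, L ≠ Icc a b) : L = {0, 2} := by
  have h1 : ∀ M ∈ (range 3).powerset, (∀ a ∈ range 4, ∀ b ∈ range 4, M ≠ Icc a b) →
      M = {0, 2} := by decide
  exact h1 L (mem_powerset.2 fun l hl => mem_range.2 (by have := hk l hl; omega))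
    fun a _ b _ => hL a b

theorem val2_two (r : ℕ) : val2 2 r = r := by simp [val2]

theorem val2_three (r : ℕ) : val2 3 r = 3 * r - 6 := by simp [val2]

theorem val2_four {n : ℕ} (r : ℕ) (hn : 4 ≤ n) :
    val2 n r = (r - 2) * n.choose 2 + 1 + (n - 2).choose 2 := by
  unfold val2
  rw [if_neg (by omega), if_neg (by omega)]

theorem const_adm {n r : ℕ} (hr : 3 ≤ r) {𝒜 : Fin r → Finset (Finset (Fin n))}
    (h : Const2 n r 𝒜) : Adm n 2 r {0, 2} 𝒜 ∧ total 𝒜 = r := by
  obtain ⟨K, hK, h⟩ := h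
  refine ⟨⟨fun i F hF => ?_, fun i => ?_, fun A hA => ?_⟩, ?_⟩
  · rw [h i, mem_singleton] at hF
    rw [hF, hK]
  · rw [h i]
    exact singleton_nonempty _
  · have hA' : ∀ i, A i = K := fun i => by
      have := hA i
      rwa [h i, mem_singleton] at this
    have e : common A = K := by
      ext x
      rw [mem_common']
      constructor
      · intro hx
        have := hx ⟨0, by omega⟩
        rwa [hA'] at this
      · intro hx i
        rwa [hA' i]
    rw [e, hK]
    simp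
  · unfold total
    rw [sum_congr rfl fun i _ => by rw [h i, card_singleton]]
    simp

theorem tri_adm {r : ℕ} (hr : 3 ≤ r) {𝒜 : Fin r → Finset (Finset (Fin 3))}
    (h : Tri 3 r 𝒜) : Adm 3 2 r {0, 2} 𝒜 ∧ total 𝒜 = 3 * r - 6 := by
  classical
  obtain ⟨g, hg, h1, h2⟩ := h
  have hcx : ∀ x : Fin 3, #((univ : Finset (Fin 3)).erase x) = 2 := by decide
  refine ⟨⟨fun i F hF => ?_, fun i => ?_, fun A hA => ?_⟩, ?_⟩
  · by_cases hi : ∃ x, g x = i
    · obtain ⟨x, rfl⟩ := hi
      rw [h1 x, mem_singleton] at hF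
      rw [hF, hcx x]
    · push Not at hi
      exact (h2 i hi F).1 hF
  · by_cases hi : ∃ x, g x = i
    · obtain ⟨x, rfl⟩ := hi
      rw [h1 x]
      exact singleton_nonempty _
    · push Not at hi
      exact ⟨{0, 1}, (h2 i hi _).2 (by decide)⟩
  · have e : common A = ∅ := by
      rw [eq_empty_iff_forall_notMem]
      intro x hx
      have hx2 := mem_common'.1 hx (g x)
      have hx3 := hA (g x)
      rw [h1 x, mem_singleton] at hx3
      rw [hx3] at hx2
      simp at hx2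
    rw [e]
    simp
  · unfold total
    have hs := sum_sdiff (s₁ := univ.image g) (s₂ := univ) (f := fun i => #(𝒜 i)) (subset_univ _)
    rw [← hs]
    have e1 : ∑ i ∈ univ.image g, #(𝒜 i) = 3 := by
      rw [sum_image fun x _ y _ hxy => hg hxy]
      rw [sum_congr rfl fun x _ => by rw [h1 x, card_singleton]]
      simp
    have e2 : ∑ i ∈ univ \ univ.image g, #(𝒜 i) = #(univ \ univ.image g) * 3 := by
      refine sum_const_nat fun i hi => ?_
      rw [mem_sdiff, mem_image] at hi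
      have hi' : ∀ x, g x ≠ i := fun x hx => hi.2 ⟨x, mem_univ _, hx⟩
      have e : 𝒜 i = powersetCard 2 univ := by
        ext F
        rw [h2 i hi' F, mem_powersetCard]
        simp
      rw [e, card_powersetCard, card_univ, Fintype.card_fin]
      rfl
    rw [e1, e2, card_sdiff_of_subset (subset_univ _), card_image_of_injective _ hg, card_univ,
      card_univ, Fintype.card_fin, Fintype.card_fin]
    omega

theorem ext2_adm {n r : ℕ} (hr : 3 ≤ r) {𝒜 : Fin r → Finset (Finset (Fin n))}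
    (h : Ext2 n r 𝒜) : Adm n 2 r {0, 2} 𝒜 ∧ total 𝒜 = val2 n r := by
  rcases h with ⟨hn, h⟩ | ⟨hn, h | ⟨hr3, h⟩⟩ | ⟨hn, h⟩
  · subst hn
    rw [val2_two]
    exact const_adm hr h
  · subst hn
    rw [val2_three]
    exact tri_adm hr h
  · subst hn
    rw [val2_three]
    obtain ⟨a, b⟩ := const_adm hr h
    exact ⟨a, by rw [b]; omega⟩
  · refine ⟨typeB_adm hr le_rfl (by omega) (by omega) (fun i hi => ?_) h, ?_⟩
    · have : i = 0 := by omega
      rw [this]
      simp
    · rw [typeB_total hr (by omega) (by omega) h, val2_four r hn]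
      simp [valB]

theorem exists_ext2 {n r : ℕ} (hn : 2 ≤ n) (hr : 3 ≤ r) :
    ∃ 𝒜 : Fin r → Finset (Finset (Fin n)), Ext2 n r 𝒜 := by
  rcases (show n = 2 ∨ n = 3 ∨ 4 ≤ n by omega) with h | h | h
  · subst h
    exact ⟨fun _ => {univ}, Or.inl ⟨rfl, univ, by simp, fun _ => rfl⟩⟩
  · subst h
    refine ⟨fun i => if hi : i.1 < 3 then {univ.erase ⟨i.1, hi⟩} else powersetCard 2 univ,
      Or.inr (Or.inl ⟨rfl, Or.inl ⟨Fin.castLE hr, Fin.castLE_injective hr, fun x => ?_,
        fun i hi F => ?_⟩⟩)⟩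
    · have hx : (Fin.castLE hr x).1 < 3 := x.2
      show (if hi : (Fin.castLE hr x).1 < 3 then _ else _) = _
      rw [dif_pos hx]
      rfl
    · have hi' : ¬ i.1 < 3 := fun hc => hi ⟨i.1, hc⟩ (Fin.ext rfl)
      show F ∈ (if hi : i.1 < 3 then _ else _) ↔ _
      rw [dif_neg hi', mem_powersetCard]
      simp
  · obtain ⟨𝒜, h2⟩ := exists_typeB n 2 r 0 1 hr (by omega) (by omega)
    exact ⟨𝒜, Or.inr (Or.inr ⟨h, h2⟩)⟩

theorem upperA {n r : ℕ} (hn : 2 ≤ n) (hr : 3 ≤ r) {𝒜 : Fin r → Finset (Finset (Fin n))}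
    (h : Adm n 2 r {0, 2} 𝒜) {idx : Fin n → Fin r} (hidx : ∀ x, ∀ F ∈ 𝒜 (idx x), x ∉ F) :
    total 𝒜 ≤ val2 n r ∧ (total 𝒜 = val2 n r → Ext2 n r 𝒜) := by
  classical
  obtain ⟨X, hX⟩ : ∃ X : Fin r → Finset (Fin n), X = fun i => univ.filter fun x => idx x = i :=
    ⟨_, rfl⟩
  have hmX : ∀ i x, x ∈ X i ↔ idx x = i := fun i x => by rw [hX]; simp
  have hA : ∀ i, 𝒜 i ⊆ powersetCard 2 (X i)ᶜ := fun i => by rw [hX]; exact (caseA h hidx i).1
  have hXn : ∀ i, #(X i) + 2 ≤ n := fun i => by rw [hX]; exact (caseA h hidx i).2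
  have hsum : ∑ i, #(X i) = n := by rw [hX]; exact sum_fib idx
  have hle : ∀ i ∈ (univ : Finset (Fin r)), #(𝒜 i) ≤ (n - #(X i)).choose 2 := fun i _ => by
    rw [← card_out]
    exact card_le_card (hA i)
  have hle2 : total 𝒜 ≤ ∑ i, (n - #(X i)).choose 2 := sum_le_sum hle
  have heq : total 𝒜 = ∑ i, (n - #(X i)).choose 2 → ∀ i, 𝒜 i = powersetCard 2 (X i)ᶜ := by
    intro he i
    refine eq_of_subset_of_card_le (hA i) ?_
    rw [card_out]
    exact ((sum_eq_sum_iff_of_le hle).1 he i (mem_univ i)).ge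
  rcases (show n = 2 ∨ n = 3 ∨ 4 ≤ n by omega) with hn2 | hn3 | hn4
  · exfalso
    have : ∑ i, #(X i) = 0 := sum_eq_zero fun i _ => by have := hXn i; omega
    omega
  · subst hn3
    have hx1 : ∀ i, #(X i) ≤ 1 := fun i => by have := hXn i; omega
    have e1 : ∀ i, (3 - #(X i)).choose 2 + 2 * #(X i) = 3 := by
      intro i
      have := hx1 i
      interval_cases #(X i) <;> rfl
    have e2 : ∑ i, (3 - #(X i)).choose 2 = 3 * r - 6 := by
      have : ∑ i, ((3 - #(X i)).choose 2 + 2 * #(X i)) = 3 * r := by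
        rw [sum_congr rfl fun i _ => e1 i]
        simp [mul_comm]
      rw [sum_add_distrib, ← mul_sum, hsum] at this
      omega
    rw [val2_three]
    refine ⟨by rw [← e2]; exact hle2, fun he => ?_⟩
    have hAe := heq (by rw [he, e2])
    refine Or.inr (Or.inl ⟨rfl, Or.inl ⟨idx, ?_, ?_, ?_⟩⟩)
    · intro x y hxy
      exact card_le_one.1 (hx1 (idx x)) x ((hmX _ _).2 rfl) y ((hmX _ _).2 hxy.symm)
    · intro x
      have e : (X (idx x))ᶜ = univ.erase x := by
        ext y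
        rw [mem_compl, hmX, mem_erase]
        constructor
        · intro hy
          exact ⟨fun hc => hy (by rw [hc]), mem_univ _⟩
        · rintro ⟨hy, -⟩ hc
          exact hy (card_le_one.1 (hx1 (idx x)) y ((hmX _ _).2 hc) x ((hmX _ _).2 rfl))
      rw [hAe (idx x), e]
      have hcx : #((univ : Finset (Fin 3)).erase x) = 2 := by
        rw [card_erase_of_mem (mem_univ _)]; simp
      conv_lhs => rw [← hcx]
      exact powersetCard_self _
    · intro i hi F
      rw [hAe i, mem_powersetCard]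
      constructor
      · exact fun h3 => h3.2
      · intro h3
        refine ⟨fun y _ => ?_, h3⟩
        rw [mem_compl, hmX]
        exact hi y
  · rw [val2_four r hn4]
    obtain ⟨b1, b2⟩ := numA (by omega : 2 ≤ r) hn4 (fun i => #(X i))
      (fun i => by have := hXn i; show #(X i) ≤ n - 2; omega) hsum
    refine ⟨hle2.trans b1, fun he => ?_⟩
    have he2 : total 𝒜 = ∑ i, (n - #(X i)).choose 2 := le_antisymm hle2 (by rw [he]; exact b1)
    have hAe := heq he2
    obtain ⟨l, l', hll, hl, hl', h0⟩ := b2 (by rw [← he2, he])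
    have hX0 : ∀ i, i ≠ l → i ≠ l' → X i = ∅ := fun i hi hi' => card_eq_zero.1 (h0 i hi hi')
    have hKc : #((X l)ᶜ) = 2 := by
      rw [card_compl, Fintype.card_fin, show #(X l) = n - 2 from hl]
      omega
    refine Or.inr (Or.inr ⟨hn4, ∅, (X l)ᶜ, card_empty, hKc, empty_subset _, l, l', hll, ?_, ?_, ?_⟩)
    · rw [hAe l]
      conv_lhs => rw [← hKc]
      exact powersetCard_self _
    · intro F
      rw [hAe l', mem_powersetCard]
      have hxl : ∀ y, y ∈ X l' ↔ y ∉ X l := by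
        intro y
        rw [hmX, hmX]
        constructor
        · intro hy hc
          exact hll (hc.symm.trans hy)
        · intro hy
          by_contra hc
          have : y ∈ X (idx y) := (hmX _ _).2 rfl
          rw [hX0 (idx y) hy hc] at this
          simp at this
      constructor
      · rintro ⟨c1, c2⟩
        refine ⟨c2, empty_subset _, ?_⟩
        have : F ∩ (X l)ᶜ = ∅ := by
          rw [eq_empty_iff_forall_notMem]
          intro y hy
          rw [mem_inter, mem_compl, ← hxl] at hy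
          exact (mem_compl.1 (c1 hy.1)) hy.2
        rw [this]
        simp
      · rintro ⟨c1, -, c2⟩
        have : F ∩ (X l)ᶜ = ∅ := card_eq_zero.1 (by omega)
        refine ⟨fun y hy => ?_, c1⟩
        rw [mem_compl, hxl]
        intro hc
        rw [eq_empty_iff_forall_notMem] at this
        exact this y (mem_inter.2 ⟨hy, mem_compl.2 hc⟩)
    · intro i hi hi' F
      rw [hAe i, hX0 i hi hi', mem_powersetCard]
      simp

theorem upperB {n r : ℕ} (hn : 2 ≤ n) (hr : 3 ≤ r) {𝒜 : Fin r → Finset (Finset (Fin n))}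
    (h : Adm n 2 r {0, 2} 𝒜) {x0 : Fin n} (hx0 : ∀ i, ∃ F ∈ 𝒜 i, x0 ∈ F) :
    total 𝒜 ≤ val2 n r ∧ (total 𝒜 = val2 n r → Ext2 n r 𝒜) := by
  classical
  have h1 : (1 : ℕ) ∉ ({0, 2} : Finset ℕ) := by decide
  obtain ⟨M, hMd⟩ : ∃ M : Finset (Fin n), M = univ.filter fun x => ∀ i, ∃ F ∈ 𝒜 i, x ∈ F :=
    ⟨_, rfl⟩
  have hM : ∀ x, x ∈ M ↔ ∀ i, ∃ F ∈ 𝒜 i, x ∈ F := fun x => by rw [hMd]; simp
  obtain ⟨e, e1, e2, e3⟩ := iso h h1 (by omega) hx0
  have heM : e ⊆ M := fun y hy => (hM y).2 fun i => ⟨e, (e3 i).1, hy⟩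
  have hM2 : 2 ≤ #M := by
    have := card_le_card heM
    omega
  have hMn : #M ≤ n := by
    have := card_le_univ M
    rwa [Fintype.card_fin] at this
  have hex : ∀ x, ∃ i : Fin r, x ∉ M → ∀ F ∈ 𝒜 i, x ∉ F := by
    intro x
    by_cases hx : x ∈ M
    · exact ⟨⟨0, by omega⟩, fun hc => absurd hx hc⟩
    · rw [hM] at hx
      push Not at hx
      obtain ⟨i, hi⟩ := hx
      exact ⟨i, fun _ => hi⟩
  choose idx hidx using hex
  have hB := fun i => caseB h h1 (by omega) hM hidx i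
  have hsum : ∑ i, #(Mᶜ.filter fun x => idx x = i) = n - #M := by
    have h2 := card_eq_sum_card_fiberwise (s := Mᶜ) (t := (univ : Finset (Fin r)))
      (f := idx) (fun x _ => mem_univ _)
    rw [card_compl, Fintype.card_fin] at h2
    exact h2.symm
  have htot : 2 * total 𝒜 ≤ r * #M +
      2 * ∑ i, (n - #M - #(Mᶜ.filter fun x => idx x = i)).choose 2 := by
    unfold total
    rw [mul_sum, mul_sum]
    refine (sum_le_sum fun i _ => hB i).trans (le_of_eq ?_)
    rw [sum_add_distrib]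
    simp
  rcases (show 4 ≤ n ∨ n ≤ 3 by omega) with hn4 | hn3
  · have h3 := numB_sum (r := r) (u := n - #M) (by omega)
      (fun i => #(Mᶜ.filter fun x => idx x = i)) hsum
    have h4 := numB (r := r) (n := n) (m := #M) hr hn4 hM2 hMn
    rw [val2_four r hn4]
    constructor
    · omega
    · intro he
      omega
  · have hone : ∀ i, 𝒜 i = {e} := by
      intro i
      have h5 := hB i
      have h6 : (n - #M - #(Mᶜ.filter fun x => idx x = i)).choose 2 = 0 :=
        Nat.choose_eq_zero_of_lt (by omega)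
      rw [h6] at h5
      have h7 : #(𝒜 i) ≤ 1 := by omega
      ext F
      rw [mem_singleton]
      constructor
      · intro hF
        exact card_le_one.1 h7 F hF e (e3 i).1
      · intro hF
        rw [hF]
        exact (e3 i).1
    have hc : Const2 n r 𝒜 := ⟨e, e1, hone⟩
    have ht := (const_adm hr hc).2
    rw [ht]
    rcases (show n = 2 ∨ n = 3 by omega) with h8 | h8
    · subst h8
      rw [val2_two]
      exact ⟨le_rfl, fun _ => Or.inl ⟨rfl, hc⟩⟩
    · subst h8
      rw [val2_three]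
      exact ⟨by omega, fun he => Or.inr (Or.inl ⟨rfl, Or.inr ⟨by omega, hc⟩⟩)⟩

theorem main2 (n r : ℕ) (hn : 2 ≤ n) (hr : 3 ≤ r) (L : Finset ℕ) (hk : ∀ l ∈ L, l ≤ 2)
    (hL : ∀ a b : ℕ, L ≠ Icc a b) :
    IsGreatest (totals n 2 r L) (val2 n r) ∧
      ∀ 𝒜 : Fin r → Finset (Finset (Fin n)),
        (Adm n 2 r L 𝒜 ∧ total 𝒜 = val2 n r) ↔ Ext2 n r 𝒜 := by
  classical
  have hLe := L_eq hk hL
  subst hLe
  have up : ∀ 𝒜 : Fin r → Finset (Finset (Fin n)), Adm n 2 r {0, 2} 𝒜 →
      total 𝒜 ≤ val2 n r ∧ (total 𝒜 = val2 n r → Ext2 n r 𝒜) := by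
    intro 𝒜 h
    by_cases hx : ∀ x, ∃ i, ∀ F ∈ 𝒜 i, x ∉ F
    · choose idx hidx using hx
      exact upperA hn hr h hidx
    · push Not at hx
      obtain ⟨x0, hx0⟩ := hx
      exact upperB hn hr h hx0
  refine ⟨⟨?_, ?_⟩, fun 𝒜 => ⟨fun h => (up 𝒜 h.1).2 h.2, fun h => ext2_adm hr h⟩⟩
  · obtain ⟨𝒜, h⟩ := exists_ext2 hn hr
    obtain ⟨a, b⟩ := ext2_adm hr h
    exact ⟨𝒜, a, b.symm⟩
  · rintro s ⟨𝒜, h, rfl⟩
    exact (up 𝒜 h).1

end Cross7592
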