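import Mathlib

/-!
# MP_7592f8_co: sets of size two (helper46): numerical lemmas
-/

set_option autoImplicit false

namespace Cross2
open Finset

theorem c2 (m : ℕ) : 2 * ((m.choose 2 : ℕ) : ℤ) = m * (m - 1) := by
  induction m with
  | zero => simp
  | succ m ih =>
    rw [Nat.choose_succ_succ' m 1, Nat.choose_one_right]
    push_cast
    linarith

theorem sq_le {ι : Type*} (s : Finset ι) (f : ι → ℕ) : ∑ i ∈ s, (f i) ^ 2 ≤ (∑ i ∈ s, f i) ^ 2 := by
  classical
  induction s using Finset.induction_on with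
  | empty => simp
  | insert a s ha ih =>
    rw [sum_insert ha, sum_insert ha]
    nlinarith [Nat.zero_le (f a * ∑ i ∈ s, f i)]

theorem sq_add {ι : Type*} [DecidableEq ι] (s : Finset ι) (f : ι → ℕ) {i j : ι} (hi : i ∈ s)
    (hj : j ∈ s) (hij : i ≠ j) :
    ∑ k ∈ s, (f k) ^ 2 + 2 * (f i * f j) ≤ (∑ k ∈ s, f k) ^ 2 := by
  have hj' : j ∈ s.erase i := mem_erase.2 ⟨hij.symm, hj⟩
  rw [← add_sum_erase s _ hi, ← add_sum_erase _ _ hj', ← add_sum_erase s f hi,
    ← add_sum_erase _ f hj']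
  have h1 := sq_le ((s.erase i).erase j) f
  nlinarith [Nat.zero_le (f i * ∑ k ∈ (s.erase i).erase j, f k),
    Nat.zero_le (f j * ∑ k ∈ (s.erase i).erase j, f k)]

/-- The sum of the squares. -/
theorem sq_max {r n : ℕ} (hn : 4 ≤ n) (x : Fin r → ℕ) (hx : ∀ i, x i ≤ n - 2)
    (hs : ∑ i, x i = n) :
    ∑ i, (x i) ^ 2 ≤ (n - 2) ^ 2 + 4 ∧ (∑ i, (x i) ^ 2 = (n - 2) ^ 2 + 4 →
      ∃ l l', l ≠ l' ∧ x l = n - 2 ∧ x l' = 2 ∧ ∀ i, i ≠ l → i ≠ l' → x i = 0) := by
  classical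
  obtain ⟨p, rfl⟩ : ∃ p, n = p + 4 := ⟨n - 4, by omega⟩
  have e0 : p + 4 - 2 = p + 2 := by omega
  rw [e0] at hx ⊢
  by_cases h1 : ∀ i, x i ≤ 1
  · have h2 : ∑ i, (x i) ^ 2 ≤ ∑ i, x i := sum_le_sum fun i _ => by
      have := h1 i
      interval_cases x i <;> simp
    have h3 : ∑ i, (x i) ^ 2 < (p + 2) ^ 2 + 4 := by
      rw [hs] at h2
      nlinarith
    exact ⟨h3.le, fun h => by omega⟩
  · push Not at h1
    obtain ⟨l, hl⟩ := h1
    have a1 : x l + ∑ i ∈ univ.erase l, x i = p + 4 := by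
      rw [add_sum_erase univ x (mem_univ l)]; exact hs
    have a2 : (x l) ^ 2 + ∑ i ∈ univ.erase l, (x i) ^ 2 = ∑ i, (x i) ^ 2 :=
      add_sum_erase univ (fun i => (x i) ^ 2) (mem_univ l)
    have a3 := sq_le (univ.erase l) x
    have a4 := hx l
    obtain ⟨m, hm⟩ : ∃ m, x l = m + 2 := ⟨x l - 2, by omega⟩
    obtain ⟨q, hq⟩ : ∃ q, p = m + q := ⟨p - m, by omega⟩
    have a5 : ∑ i ∈ univ.erase l, x i = q + 2 := by omega
    rw [a5] at a3
    rw [hm] at a2
    subst hq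
    constructor
    · rw [← a2]
      nlinarith [Nat.zero_le (m * q)]
    · intro he
      rw [← a2] at he
      have b1 : m * q = 0 := by
        have : 2 * (m * q) ≤ 0 := by nlinarith
        omega
      have b2 : ∑ i ∈ univ.erase l, (x i) ^ 2 = (q + 2) ^ 2 := by nlinarith
      obtain ⟨l', hl', hx'⟩ : ∃ l' ∈ univ.erase l, x l' ≠ 0 := by
        by_contra hc
        push Not at hc
        rw [sum_eq_zero hc] at a5
        omega
      have hne : l ≠ l' := fun h => by rw [← h] at hl'; simp at hl'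
      have b3 : ∀ i, i ≠ l → i ≠ l' → x i = 0 := by
        intro i hi hi'
        have c1 := sq_add (univ.erase l) x (i := i) (j := l') (mem_erase.2 ⟨hi, mem_univ _⟩) hl' hi'
        rw [b2, a5] at c1
        have c2 : x i * x l' = 0 := by omega
        rcases Nat.mul_eq_zero.1 c2 with h | h
        · exact h
        · exact absurd h hx'
      have b4 : x l' = q + 2 := by
        rw [← a5]
        exact (sum_eq_single_of_mem l' hl' fun i hi hi' => b3 i (mem_erase.1 hi).1 hi').symm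
      rcases Nat.mul_eq_zero.1 b1 with h | h
      · exact ⟨l', l, hne.symm, by omega, by omega, fun i hi hi' => b3 i hi' hi⟩
      · exact ⟨l, l', hne, by omega, by omega, b3⟩

/-- Case A, `n ≥ 4`. -/
theorem numA {r n : ℕ} (hr : 2 ≤ r) (hn : 4 ≤ n) (x : Fin r → ℕ) (hx : ∀ i, x i ≤ n - 2)
    (hs : ∑ i, x i = n) :
    ∑ i, (n - x i).choose 2 ≤ (r - 2) * n.choose 2 + 1 + (n - 2).choose 2 ∧
    (∑ i, (n - x i).choose 2 = (r - 2) * n.choose 2 + 1 + (n - 2).choose 2 →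
      ∃ l l', l ≠ l' ∧ x l = n - 2 ∧ x l' = 2 ∧ ∀ i, i ≠ l → i ≠ l' → x i = 0) := by
  obtain ⟨h1, h2⟩ := sq_max hn x hx hs
  have e1 : 2 * ((∑ i, (n - x i).choose 2 : ℕ) : ℤ) =
      r * (n * (n - 1)) - (2 * n - 1) * n + ((∑ i, (x i) ^ 2 : ℕ) : ℤ) := by
    have a1 : ∀ i, 2 * (((n - x i).choose 2 : ℕ) : ℤ) =
        n * (n - 1) - (2 * n - 1) * (x i : ℤ) + ((x i) ^ 2 : ℕ) := by
      intro i
      have := hx i
      rw [c2, Nat.cast_sub (by omega)]
      push_cast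
      ring
    have a2 : ((∑ i, x i : ℕ) : ℤ) = n := by rw [hs]
    push_cast at a2
    have a3 : ∑ i, (2 * (n : ℤ) - 1) * (x i : ℤ) = (2 * n - 1) * n := by rw [← mul_sum, a2]
    rw [Nat.cast_sum, mul_sum, sum_congr rfl fun i _ => a1 i, sum_add_distrib, sum_sub_distrib, a3,
      sum_const, card_univ, Fintype.card_fin, nsmul_eq_mul, Nat.cast_sum]
  have e2 : 2 * (((r - 2) * n.choose 2 + 1 + (n - 2).choose 2 : ℕ) : ℤ) =
      (r - 2) * (n * (n - 1)) + 2 + (n - 2) * (n - 3) := by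
    have b1 := c2 n
    have b2 := c2 (n - 2)
    rw [Nat.cast_sub (by omega : 2 ≤ n)] at b2
    push_cast [Nat.cast_sub hr] at b2 ⊢
    linear_combination ((r : ℤ) - 2) * b1 + b2
  have e3 : (((n - 2) ^ 2 + 4 : ℕ) : ℤ) = (n - 2) ^ 2 + 4 := by
    push_cast [Nat.cast_sub (by omega : 2 ≤ n)]
    ring
  constructor
  · zify at h1
    push_cast at e3
    have h3 : ((∑ i, (x i) ^ 2 : ℕ) : ℤ) ≤ (n - 2) ^ 2 + 4 := by
      push_cast
      rw [← e3]
      exact h1
    have h4 : ((∑ i, (n - x i).choose 2 : ℕ) : ℤ) ≤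
        (((r - 2) * n.choose 2 + 1 + (n - 2).choose 2 : ℕ) : ℤ) := by nlinarith
    exact_mod_cast h4
  · intro he
    apply h2
    have h5 : ((∑ i, (n - x i).choose 2 : ℕ) : ℤ) =
        (((r - 2) * n.choose 2 + 1 + (n - 2).choose 2 : ℕ) : ℤ) := by rw [he]
    have h6 : ((∑ i, (x i) ^ 2 : ℕ) : ℤ) = (((n - 2) ^ 2 + 4 : ℕ) : ℤ) := by
      rw [e3]
      rw [h5] at e1
      rw [e2] at e1
      linarith
    exact_mod_cast h6

/-- Case B, the sum. -/
theorem numB_sum {r u : ℕ} (hr : 1 ≤ r) (x : Fin r → ℕ) (hs : ∑ i, x i = u) :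
    2 * ∑ i, (u - x i).choose 2 ≤ (r - 1) * (u * (u - 1)) := by
  have hle : ∀ i, x i ≤ u := fun i => by
    rw [← hs]
    exact single_le_sum (fun _ _ => Nat.zero_le _) (mem_univ i)
  have a1 : ∀ i, 2 * (u - x i).choose 2 ≤ (u - x i) * (u - 1) := by
    intro i
    have := c2 (u - x i)
    have h2 : 2 * (u - x i).choose 2 = (u - x i) * (u - x i - 1) := by
      rcases Nat.eq_zero_or_pos (u - x i) with h0 | h0
      · rw [h0]; simp
      · zify [Nat.succ_le_iff.2 h0]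
        exact this
    rw [h2]
    exact Nat.mul_le_mul_left _ (by omega)
  have a2 : ∑ i, (u - x i) = (r - 1) * u := by
    have h3 : ∑ i, (u - x i) + ∑ i, x i = r * u := by
      rw [← sum_add_distrib]
      rw [sum_congr rfl fun i _ => Nat.sub_add_cancel (hle i)]
      simp
    obtain ⟨r', rfl⟩ : ∃ r', r = r' + 1 := ⟨r - 1, by omega⟩
    rw [hs] at h3
    rw [Nat.add_sub_cancel]
    have h4 : (r' + 1) * u = r' * u + u := by ring
    omega
  rw [mul_sum]
  refine (sum_le_sum fun i _ => a1 i).trans (le_of_eq ?_)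
  rw [← sum_mul, a2]
  ring

/-- Case B, `n ≥ 4`. -/
theorem numB {r n m : ℕ} (hr : 3 ≤ r) (hn : 4 ≤ n) (hm : 2 ≤ m) (hmn : m ≤ n) :
    r * m + (r - 1) * ((n - m) * (n - m - 1)) <
      2 * ((r - 2) * n.choose 2 + 1 + (n - 2).choose 2) := by
  have e2 : 2 * (((r - 2) * n.choose 2 + 1 + (n - 2).choose 2 : ℕ) : ℤ) =
      (r - 2) * (n * (n - 1)) + 2 + (n - 2) * (n - 3) := by
    have b1 := c2 n
    have b2 := c2 (n - 2)
    rw [Nat.cast_sub (by omega : 2 ≤ n)] at b2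
    push_cast [Nat.cast_sub (by omega : 2 ≤ r)] at b2 ⊢
    linear_combination ((r : ℤ) - 2) * b1 + b2
  have e3 : (((n - m) * (n - m - 1) : ℕ) : ℤ) = (n - m) * (n - m - 1) := by
    rcases Nat.eq_zero_or_pos (n - m) with h0 | h0
    · have : n = m := by omega
      rw [this]
      simp
    · rw [Nat.cast_mul, Nat.cast_sub (by omega : 1 ≤ n - m), Nat.cast_sub hmn]
      push_cast
      ring
  have e4 : ((r * m + (r - 1) * ((n - m) * (n - m - 1)) : ℕ) : ℤ) =
      r * m + (r - 1) * ((n - m) * (n - m - 1)) := by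
    rw [Nat.cast_add, Nat.cast_mul, Nat.cast_mul, Nat.cast_sub (by omega : 1 ≤ r), e3]
    push_cast
    ring
  have key : (r : ℤ) * m + (r - 1) * ((n - m) * (n - m - 1)) <
      (r - 2) * (n * (n - 1)) + 2 + (n - 2) * (n - 3) := by
    have h1 : (3 : ℤ) ≤ r := by exact_mod_cast hr
    have h2 : (4 : ℤ) ≤ n := by exact_mod_cast hn
    have h3 : (2 : ℤ) ≤ m := by exact_mod_cast hm
    have h4 : (m : ℤ) ≤ n := by exact_mod_cast hmn
    have h5 : (0 : ℤ) ≤ ((m : ℤ) - 2) * (n - m) := mul_nonneg (by linarith) (by linarith)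
    have h6 : (0 : ℤ) ≤ ((r : ℤ) - 3) * (m * (2 * n - m - 2)) :=
      mul_nonneg (by linarith) (mul_nonneg (by linarith) (by linarith))
    have h7 : (0 : ℤ) < 8 + m * (2 * n - 9) := by
      rcases h2.lt_or_eq with h | h
      · have : (5 : ℤ) ≤ n := by linarith
        nlinarith
      · rw [← h] at h4 ⊢
        linarith
    nlinarith
  have : ((r * m + (r - 1) * ((n - m) * (n - m - 1)) : ℕ) : ℤ) <
      ((2 * ((r - 2) * n.choose 2 + 1 + (n - 2).choose 2) : ℕ) : ℤ) := by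
    rw [e4, Nat.cast_mul]
    rw [show ((2 : ℕ) : ℤ) = 2 from rfl, e2]
    exact key
  exact_mod_cast this

end Cross2
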